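import Mathlib
import Pool.Agent.H220.F4.Stm

/-!
The two integral estimates `S_ps2` for the function `ps s` (subtask 1107 for helper220).
-/

set_option autoImplicit false
set_option maxHeartbeats 1000000

open MeasureTheory Metric Set Filter Topology
open scoped ContDiff ENNReal

namespace Pool.Agent.H194.F4

open Pool.Agent.H220.F4 Pool.Agent.H805R2

/-- the isometry of `ℂ²` with the `ℓ²` product -/
noncomputable def isoL : Cn 2 ≃ₗᵢ[ℝ] WithLp 2 (ℂ × ℂ) where
  toFun z := WithLp.toLp 2 (z 0, z 1)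
  invFun p := vec p.fst p.snd
  map_add' x y := rfl
  map_smul' c x := rfl
  left_inv z := by
    ext i
    fin_cases i <;> simp [vec]
  right_inv p := by
    simp [vec]
    rfl
  norm_map' z := by
    simp [EuclideanSpace.norm_eq, WithLp.prod_norm_eq_of_L2, Fin.sum_univ_two]

/-- the measurable equivalence `ℂ² ≃ ℂ × ℂ` -/
noncomputable def eqv : Cn 2 ≃ᵐ ℂ × ℂ :=
  isoL.toHomeomorph.toMeasurableEquiv.trans (MeasurableEquiv.toLp 2 (ℂ × ℂ)).symm

lemma eqv_apply (z : Cn 2) : eqv z = (z 0, z 1) := rfl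

lemma eqv_mp : MeasurePreserving eqv (volume : Measure (Cn 2)) ((volume : Measure ℂ).prod volume) := by
  have h1 : MeasurePreserving (fun z : Cn 2 => isoL z) volume volume := isoL.measurePreserving
  have h2 := WithLp.volume_preserving_symm_measurableEquiv_toLp_prod ℂ ℂ
  have h3 := h2.comp h1
  exact h3


/-- polar coordinates for radial functions on the unit disc -/
lemma disc_int (f : ℝ → ℝ) :
    ∫ w in ball (0 : ℂ) 1, f ‖w‖ = 2 * Real.pi * ∫ y in (0 : ℝ)..1, y * f y := by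
  have h1 : ∫ w in ball (0 : ℂ) 1, f ‖w‖ = ∫ w : ℂ, (Iio (1 : ℝ)).indicator f ‖w‖ := by
    rw [← integral_indicator measurableSet_ball]
    apply integral_congr_ae
    filter_upwards with x
    simp [indicator]
  rw [h1, integral_fun_norm_addHaar]
  have h2 : (volume : Measure ℂ).real (ball 0 1) = Real.pi := by
    simp [Measure.real, Complex.volume_ball]
  rw [h2, Complex.finrank_real_complex]
  have h3 : ∫ y in Ioi (0 : ℝ), y ^ (2 - 1) • (Iio (1 : ℝ)).indicator f y =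
      ∫ y in (0 : ℝ)..1, y * f y := by
    rw [intervalIntegral.integral_of_le zero_le_one, integral_Ioc_eq_integral_Ioo,
      ← integral_indicator measurableSet_Ioi, ← integral_indicator measurableSet_Ioo]
    apply integral_congr_ae
    filter_upwards with x
    by_cases h0 : 0 < x <;> by_cases h4 : x < 1 <;> simp [indicator, h0, h4]
  rw [h3]
  simp only [smul_eq_mul, nsmul_eq_mul]
  push_cast
  ring

lemma inner1 (E : ℝ) (hE : 0 < E) :
    ∫ w in ball (0 : ℂ) 1, E ^ 2 / (‖w‖ ^ 2 + E) ^ 3 ≤ Real.pi / 2 := by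
  rw [disc_int (fun y => E ^ 2 / (y ^ 2 + E) ^ 3)]
  have hpos : ∀ y : ℝ, 0 < y ^ 2 + E := fun y => by positivity
  have h1 : ∫ y in (0 : ℝ)..1, y * (E ^ 2 / (y ^ 2 + E) ^ 3) =
      -(E ^ 2 / (4 * (1 ^ 2 + E) ^ 2)) - -(E ^ 2 / (4 * (0 ^ 2 + E) ^ 2)) := by
    apply intervalIntegral.integral_eq_sub_of_hasDerivAt (f := fun y : ℝ => -(E ^ 2 / (4 * (y ^ 2 + E) ^ 2)))
    · intro y _
      have h := hpos y
      have h2 : HasDerivAt (fun y : ℝ => 4 * (y ^ 2 + E) ^ 2) (4 * (2 * (y ^ 2 + E) ^ 1 * (2 * y ^ 1))) y := by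
        have := (((hasDerivAt_pow 2 y).add_const E).pow 2).const_mul 4
        simpa using this
      have h3 : HasDerivAt (fun y : ℝ => -(E ^ 2 / (4 * (y ^ 2 + E) ^ 2))) _ y :=
        ((hasDerivAt_const y (E ^ 2)).fun_div h2 (by positivity)).fun_neg
      refine h3.congr_deriv ?_
      field_simp
      ring
    · apply Continuous.intervalIntegrable
      apply continuous_id.mul
      apply Continuous.div continuous_const (by fun_prop)
      intro y; have := hpos y; positivity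
  rw [h1]
  have h5 : 0 ≤ E ^ 2 / (4 * (1 ^ 2 + E) ^ 2) := by positivity
  have h6 : E ^ 2 / (4 * (0 ^ 2 + E) ^ 2) = 1 / 4 := by field_simp; ring
  rw [h6]
  have := Real.pi_pos
  nlinarith

lemma inner2 (E : ℝ) (hE : 0 < E) :
    ∫ w in ball (0 : ℂ) 1, 1 / (‖w‖ ^ 2 + E) = Real.pi * (Real.log (1 + E) - Real.log E) := by
  rw [disc_int (fun y => 1 / (y ^ 2 + E))]
  have hpos : ∀ y : ℝ, 0 < y ^ 2 + E := fun y => by positivity
  have h1 : ∫ y in (0 : ℝ)..1, y * (1 / (y ^ 2 + E)) =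
      Real.log (1 ^ 2 + E) / 2 - Real.log (0 ^ 2 + E) / 2 := by
    apply intervalIntegral.integral_eq_sub_of_hasDerivAt (f := fun y : ℝ => Real.log (y ^ 2 + E) / 2)
    · intro y _
      have h := hpos y
      have h2 := (((hasDerivAt_pow 2 y).add_const E).log h.ne').div_const 2
      refine h2.congr_deriv ?_
      push_cast
      field_simp
    · apply Continuous.intervalIntegrable
      apply continuous_id.mul
      apply Continuous.div continuous_const (by fun_prop)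
      intro y; have := hpos y; positivity
  rw [h1]
  simp only [one_pow, ne_eq, OfNat.ofNat_ne_zero, not_false_eq_true, zero_pow, zero_add]
  ring


lemma int_Om (g : ℂ × ℂ → ℝ) (hg : Continuous g) :
    ∫ z in Om, g (z 0, z 1) = ∫ ζ in ball (0 : ℂ) 1, ∫ w in ball (0 : ℂ) 1, g (ζ, w) := by
  have h1 : Om = eqv ⁻¹' (ball (0 : ℂ) 1 ×ˢ ball (0 : ℂ) 1) := by
    ext z; simp [Om, eqv_apply]
  have h2 := eqv_mp.setIntegral_preimage_emb eqv.measurableEmbedding g (ball (0 : ℂ) 1 ×ˢ ball (0 : ℂ) 1)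
  rw [h1]
  refine h2.trans ?_
  rw [setIntegral_prod]
  apply (hg.continuousOn.integrableOn_compact
    ((isCompact_closedBall (0 : ℂ) 1).prod (isCompact_closedBall (0 : ℂ) 1))).mono_set
  exact Set.prod_mono ball_subset_closedBall ball_subset_closedBall

lemma vol_ball : (volume : Measure ℂ).real (ball 0 1) = Real.pi := by
  simp [Measure.real, Complex.volume_ball]

lemma int_Om_le (g : ℂ × ℂ → ℝ) (hg : Continuous g) (h0 : ∀ p, 0 ≤ g p) (b : ℝ)
    (hb : ∀ ζ ∈ ball (0 : ℂ) 1, ∫ w in ball (0 : ℂ) 1, g (ζ, w) ≤ b) :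
    ∫ z in Om, g (z 0, z 1) ≤ Real.pi * b := by
  rw [int_Om g hg]
  have h1 : ∫ ζ in ball (0 : ℂ) 1, ∫ w in ball (0 : ℂ) 1, g (ζ, w) ≤ ∫ ζ in ball (0 : ℂ) 1, b := by
    apply integral_mono_of_nonneg
    · exact Eventually.of_forall fun ζ => integral_nonneg fun w => h0 _
    · exact integrableOn_const (by simp [Complex.volume_ball])
    · refine (ae_restrict_iff' measurableSet_ball).2 (Eventually.of_forall hb)
  refine h1.trans (le_of_eq ?_)
  rw [setIntegral_const, vol_ball, smul_eq_mul]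

/-- the exponential -/
noncomputable def Ex (s : ℝ) (ζ : ℂ) : ℝ := Real.exp (2 * s * (‖ζ‖ ^ 2 - 1))

lemma Ex_pos (s : ℝ) (ζ : ℂ) : 0 < Ex s ζ := Real.exp_pos _

lemma Ex_cont (s : ℝ) : Continuous (Ex s) := by unfold Ex; fun_prop

lemma den_pos (s : ℝ) (ζ w : ℂ) : 0 < ‖w‖ ^ 2 + Ex s ζ := by
  have := Ex_pos s ζ
  positivity

lemma bound1 (s : ℝ) : ∫ z in Om, Ex s (z 0) ^ 2 / (‖z 1‖ ^ 2 + Ex s (z 0)) ^ 3 ≤ Real.pi * (Real.pi / 2) := by
  have hE := Ex_cont s
  apply int_Om_le (fun p => Ex s p.1 ^ 2 / (‖p.2‖ ^ 2 + Ex s p.1) ^ 3)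
  · apply Continuous.div (by fun_prop) (by fun_prop)
    intro p; have := den_pos s p.1 p.2; positivity
  · intro p; have := den_pos s p.1 p.2; positivity
  · intro ζ _
    exact inner1 _ (Ex_pos s ζ)

lemma bound2 (s : ℝ) (hs : 1 ≤ s) : ∫ z in Om, 1 / (‖z 1‖ ^ 2 + Ex s (z 0)) ≤
    Real.pi * (Real.pi * (1 + 2 * s)) := by
  have hE := Ex_cont s
  apply int_Om_le (fun p => 1 / (‖p.2‖ ^ 2 + Ex s p.1))
  · apply Continuous.div (by fun_prop) (by fun_prop)
    intro p; have := den_pos s p.1 p.2; positivity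
  · intro p; have := den_pos s p.1 p.2; positivity
  · intro ζ hζ
    simp only
    rw [inner2 _ (Ex_pos s ζ)]
    apply mul_le_mul_of_nonneg_left _ Real.pi_pos.le
    have hz : ‖ζ‖ < 1 := by simpa using hζ
    have hz2 : ‖ζ‖ ^ 2 < 1 := by
      have := norm_nonneg ζ
      nlinarith
    have h1 : Ex s ζ ≤ 1 := by
      unfold Ex
      rw [Real.exp_le_one_iff]
      nlinarith
    have h2 : Real.log (1 + Ex s ζ) ≤ Ex s ζ := by
      have := Real.log_le_sub_one_of_pos (x := 1 + Ex s ζ) (by have := Ex_pos s ζ; linarith)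
      linarith
    have h3 : Real.log (Ex s ζ) = 2 * s * (‖ζ‖ ^ 2 - 1) := by unfold Ex; rw [Real.log_exp]
    rw [h3]
    nlinarith [sq_nonneg ‖ζ‖]


/-! ### The ring of smooth functions -/

/-- the coordinate `w` -/
noncomputable def sa : SR 2 := mkS (fun z => z 1) (by
  have h : ContDiff ℂ ∞ (fun z : Cn 2 => z 1) := by fun_prop
  exact h.restrict_scalars ℝ)

/-- the conjugate coordinate -/
noncomputable def sb : SR 2 := mkS (fun z => (starRingEnd ℂ) (z 1)) (by
  have h : ContDiff ℂ ∞ (fun z : Cn 2 => z 1) := by fun_prop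
  exact Complex.conjCLE.contDiff.comp (h.restrict_scalars ℝ))

lemma Ex_smooth (s : ℝ) : ContDiff ℝ ∞ (fun z : Cn 2 => Ex s (z 0)) := by
  unfold Ex
  have h : ContDiff ℂ ∞ (fun z : Cn 2 => z 0) := by fun_prop
  have h' : ContDiff ℝ ∞ (fun z : Cn 2 => z 0) := h.restrict_scalars ℝ
  have h2 : ContDiff ℝ ∞ (fun z : Cn 2 => ‖z 0‖ ^ 2) := h'.norm_sq ℝ
  exact ((contDiff_const.mul (h2.sub contDiff_const))).exp

lemma nsq_smooth : ContDiff ℝ ∞ (fun z : Cn 2 => ‖z 1‖ ^ 2) := by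
  have h : ContDiff ℂ ∞ (fun z : Cn 2 => z 1) := by fun_prop
  have h' : ContDiff ℝ ∞ (fun z : Cn 2 => z 1) := h.restrict_scalars ℝ
  exact h'.norm_sq ℝ

lemma inv_smooth (s : ℝ) : ContDiff ℝ ∞ (fun z : Cn 2 => (‖z 1‖ ^ 2 + Ex s (z 0))⁻¹) :=
  (nsq_smooth.add (Ex_smooth s)).inv fun z => (den_pos s (z 0) (z 1)).ne'

/-- the exponential in the ring -/
noncomputable def se (s : ℝ) : SR 2 := toSm _ (Ex_smooth s)

/-- `1/f` in the ring -/
noncomputable def sg (s : ℝ) : SR 2 := toSm _ (inv_smooth s)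

lemma bas0 : (bas (1 : Fin 2) : Cn 2) 0 = 0 := by simp [bas]
lemma bas1 : (bas (1 : Fin 2) : Cn 2) 1 = 1 := by simp [bas]

lemma sg_mul (s : ℝ) : sg s * (sa * sb + se s) = 1 := by
  apply fn_ext
  intro z
  rw [fn_mul, fn_add, fn_mul, fn_one]
  have h1 : fn sa z * fn sb z = ((‖z 1‖ ^ 2 : ℝ) : ℂ) := by
    change z 1 * (starRingEnd ℂ) (z 1) = _
    rw [Complex.mul_conj, Complex.normSq_eq_norm_sq]
  have h2 : fn (se s) z = ((Ex s (z 0) : ℝ) : ℂ) := rfl
  have h3 : fn (sg s) z = (((‖z 1‖ ^ 2 + Ex s (z 0))⁻¹ : ℝ) : ℂ) := rfl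
  rw [h1, h2, h3, ← Complex.ofReal_add, ← Complex.ofReal_mul,
    inv_mul_cancel₀ (den_pos s (z 0) (z 1)).ne', Complex.ofReal_one]

lemma Db_sa : Db 1 sa = 0 := by
  apply fn_ext
  intro z
  rw [Db_apply, fn_zero, wdb]
  have h : fn sa = fun z : Cn 2 => (EuclideanSpace.proj (𝕜 := ℂ) (1 : Fin 2) : Cn 2 →L[ℂ] ℂ).restrictScalars ℝ z := rfl
  rw [h, ContinuousLinearMap.fderiv]
  simp [bas]

lemma Db_sb : Db 1 sb = 1 := by
  apply fn_ext
  intro z
  rw [Db_apply, fn_one, wdb]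
  have h : fn sb = fun z : Cn 2 => ((Complex.conjCLE : ℂ →L[ℝ] ℂ).comp
    ((EuclideanSpace.proj (𝕜 := ℂ) (1 : Fin 2) : Cn 2 →L[ℂ] ℂ).restrictScalars ℝ)) z := rfl
  rw [h, ContinuousLinearMap.fderiv]
  simp [bas]

lemma Db_se (s : ℝ) : Db 1 (se s) = 0 := by
  apply fn_ext
  intro z
  rw [Db_apply, fn_zero, wdb]
  -- derivative in the directions `bas 1` and `I • bas 1`
  have h : ∀ v : Cn 2, v 0 = 0 → fderiv ℝ (fn (se s)) z v = 0 := by
    intro v hv
    have hd : DifferentiableAt ℝ (fn (se s)) z := fn_diff _ z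
    have h1 : HasLineDerivAt ℝ (fn (se s)) (fderiv ℝ (fn (se s)) z v) z v :=
      hd.hasFDerivAt.hasLineDerivAt v
    have h2 : HasLineDerivAt ℝ (fn (se s)) 0 z v := by
      unfold HasLineDerivAt
      have h3 : (fun t : ℝ => fn (se s) (z + t • v)) = fun _ => fn (se s) z := by
        funext t
        change ((Ex s ((z + t • v) 0) : ℝ) : ℂ) = ((Ex s (z 0) : ℝ) : ℂ)
        simp [hv]
      rw [h3]
      exact hasDerivAt_const _ _
    exact h1.unique h2
  rw [h _ bas0, h _ (by simp [bas])]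
  simp

lemma Db_sg (s : ℝ) : Db 1 (sg s) = - sg s ^ 2 * sa := by
  have h := congrArg (Db 1) (sg_mul s)
  have h1 := sg_mul s
  rw [Derivation.leibniz, Derivation.map_one_eq_zero, map_add, Derivation.leibniz, Db_sa, Db_sb, Db_se] at h
  simp only [smul_eq_mul, mul_one, mul_zero, add_zero] at h
  linear_combination sg s * h - (Db 1) (sg s) * h1

/-- the function `W` -/
noncomputable def sW (s : ℝ) : SR 2 := (2⁻¹ : ℂ) • (sb * ((sa * sb + (se s + se s)) * (sg s * sg s)))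

lemma Db_sW (s : ℝ) : Db 1 (sW s) = se s ^ 2 * sg s ^ 3 := by
  have h1 := sg_mul s
  have h2 : Db 1 (sb * ((sa * sb + (se s + se s)) * (sg s * sg s))) =
      se s ^ 2 * sg s ^ 3 + se s ^ 2 * sg s ^ 3 := by
    simp only [Derivation.leibniz, map_add, Db_sa, Db_sb, Db_se, Db_sg, smul_eq_mul]
    generalize sg s = g at *
    generalize se s = e at *
    generalize (sa : SR 2) = a at *
    generalize (sb : SR 2) = b at *
    -- every term has a factor `g ^ 2`, multiply the others by `g * (a * b + e) = 1`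
    linear_combination (-(g ^ 2 * (a * b + (e + e)) + g ^ 2 * (a * b))) * h1
  unfold sW
  rw [Derivation.map_smul, h2, smul_add, ← add_smul]
  norm_num


lemma W_bound (s : ℝ) (z : Cn 2) : ‖fn (sW s) z‖ ^ 2 ≤ 1 / (‖z 1‖ ^ 2 + Ex s (z 0)) := by
  have hf := den_pos s (z 0) (z 1)
  have hE := Ex_pos s (z 0)
  have h1 : fn sa z * fn sb z = ((‖z 1‖ ^ 2 : ℝ) : ℂ) := by
    change z 1 * (starRingEnd ℂ) (z 1) = _
    rw [Complex.mul_conj, Complex.normSq_eq_norm_sq]
  have h2 : fn (se s) z = ((Ex s (z 0) : ℝ) : ℂ) := rfl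
  have h3 : fn (sg s) z = (((‖z 1‖ ^ 2 + Ex s (z 0))⁻¹ : ℝ) : ℂ) := rfl
  have h4 : ‖fn sb z‖ = ‖z 1‖ := by
    change ‖(starRingEnd ℂ) (z 1)‖ = _
    exact RCLike.norm_conj _
  have h5 : fn (sW s) z = 2⁻¹ * (fn sb z * (((‖z 1‖ ^ 2 + (Ex s (z 0) + Ex s (z 0))) *
      ((‖z 1‖ ^ 2 + Ex s (z 0))⁻¹ * (‖z 1‖ ^ 2 + Ex s (z 0))⁻¹) : ℝ) : ℂ)) := by
    unfold sW
    rw [fn_smul, fn_mul, fn_mul, fn_add, fn_add, fn_mul, fn_mul, h1, h2, h3]
    push_cast
    ring
  rw [h5, norm_mul, norm_mul, h4, Complex.norm_real, Real.norm_of_nonneg (by positivity)]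
  set x := ‖z 1‖ ^ 2 with hx
  set E := Ex s (z 0) with hEd
  have hx0 : 0 ≤ x := by positivity
  have h6 : (‖(2⁻¹ : ℂ)‖ * (‖z 1‖ * ((x + (E + E)) * ((x + E)⁻¹ * (x + E)⁻¹)))) ^ 2 =
      x * (x + (E + E)) ^ 2 / (4 * (x + E) ^ 4) := by
    rw [hx]
    have : ‖(2⁻¹ : ℂ)‖ = 1 / 2 := by norm_num
    rw [this]
    field_simp
    ring
  rw [h6, div_le_div_iff₀ (by positivity) hf]
  have h7 : (x + (E + E)) ^ 2 ≤ 4 * (x + E) ^ 2 := by nlinarith
  have h8 : x * (x + (E + E)) ^ 2 ≤ (x + E) * (4 * (x + E) ^ 2) :=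
    mul_le_mul (by linarith) h7 (by positivity) (by positivity)
  calc x * (x + (E + E)) ^ 2 * (x + E) ≤ (x + E) * (4 * (x + E) ^ 2) * (x + E) :=
        mul_le_mul_of_nonneg_right h8 hf.le
    _ = 1 * (4 * (x + E) ^ 4) := by ring

lemma intOn_Om {F : Cn 2 → ℝ} (hF : Continuous F) : IntegrableOn F Om := by
  have hc : IsCompact (closure Om) := Om_bounded.isCompact_closure
  exact (hF.continuousOn.integrableOn_compact hc).mono_set subset_closure

lemma cs_ineq (f g : Cn 2 → ℂ) (hf : Continuous f) (hg : Continuous g) :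
    ∫ z in Om, ‖f z‖ * ‖g z‖ ≤ Real.sqrt (∫ z in Om, ‖f z‖ ^ 2) * Real.sqrt (∫ z in Om, ‖g z‖ ^ 2) := by
  have h := integral_mul_norm_le_Lp_mul_Lq (μ := volume.restrict Om) (f := f) (g := g)
    (p := 2) (q := 2) (Real.HolderConjugate.two_two) ?_ ?_
  · simpa [Real.sqrt_eq_rpow] using h
  · rw [ENNReal.ofReal_ofNat]
    exact (memLp_two_iff_integrable_sq_norm hf.aestronglyMeasurable).2 (intOn_Om (by fun_prop))
  · rw [ENNReal.ofReal_ofNat]
    exact (memLp_two_iff_integrable_sq_norm hg.aestronglyMeasurable).2 (intOn_Om (by fun_prop))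

lemma int_eq (s : ℝ) (c : Cn 2 → ℝ) (hc : ContDiff ℝ ∞ c) (hcs : HasCompactSupport c) :
    ((∫ z, c z * (Ex s (z 0) ^ 2 / (‖z 1‖ ^ 2 + Ex s (z 0)) ^ 3) : ℝ) : ℂ) =
      - ∫ z, fn (sW s) z * wdb 1 (fun y => ((c y : ℝ) : ℂ)) z := by
  set C : SR 2 := toSm c hc with hC
  have hCS : CS C := by
    unfold CS
    exact hcs.comp_left (g := fun x : ℝ => (x : ℂ)) (by simp)
  have h1 : intS (Db 1 (C * sW s)) = 0 := intS_Db _ (CS_mul_left _ _ hCS) 1
  rw [Derivation.leibniz, smul_eq_mul, smul_eq_mul, Db_sW, intS_add _ _ (CS_mul_left _ _ hCS)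
    (CS_mul_right _ _ (CS_wdb _ hCS 1))] at h1
  have h2 : intS (sW s * Db 1 C) = ∫ z, fn (sW s) z * wdb 1 (fun y => ((c y : ℝ) : ℂ)) z := by
    unfold intS
    apply integral_congr_ae
    refine Eventually.of_forall fun z => ?_
    simp only
    rw [fn_mul, Db_apply]
    rfl
  have h3 : intS (C * (se s ^ 2 * sg s ^ 3)) =
      ((∫ z, c z * (Ex s (z 0) ^ 2 / (‖z 1‖ ^ 2 + Ex s (z 0)) ^ 3) : ℝ) : ℂ) := by
    unfold intS
    rw [← integral_complex_ofReal]
    apply integral_congr_ae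
    refine Eventually.of_forall fun z => ?_
    simp only
    have e1 : fn C z = (c z : ℂ) := rfl
    have e2 : fn (se s) z = ((Ex s (z 0) : ℝ) : ℂ) := rfl
    have e3 : fn (sg s) z = (((‖z 1‖ ^ 2 + Ex s (z 0))⁻¹ : ℝ) : ℂ) := rfl
    rw [pow_succ, pow_succ (sg s), pow_succ (sg s)]
    simp only [pow_zero, one_mul, fn_mul, e1, e2, e3, pow_succ, div_eq_mul_inv, mul_inv]
    push_cast
    ring
  rw [← h3, ← h2]
  linear_combination h1

theorem s_ps2 (h : S_ps1) : S_ps2 := by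
  have hpi : Real.pi ^ 2 ≤ 12 := by
    have := Real.pi_lt_d2
    have := Real.pi_pos
    nlinarith
  have hdt : ∀ s : ℝ, 1 ≤ s → ∀ z, dt (ps s) z = 1 / (2 * s) *
      (Ex s (z 0) ^ 2 / (‖z 1‖ ^ 2 + Ex s (z 0)) ^ 3) := by
    intro s hs z
    rw [(h s (by linarith)).2.2 z, mul_div_assoc]
    rfl
  constructor
  · intro s hs
    simp_rw [hdt s hs]
    rw [integral_const_mul]
    have h1 := bound1 s
    have h2 : 1 / (2 * s) * ∫ z in Om, Ex s (z 0) ^ 2 / (‖z 1‖ ^ 2 + Ex s (z 0)) ^ 3 ≤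
        1 / (2 * s) * (Real.pi * (Real.pi / 2)) := mul_le_mul_of_nonneg_left h1 (by positivity)
    refine h2.trans ?_
    rw [div_mul_eq_mul_div, div_le_div_iff₀ (by positivity) (by positivity)]
    nlinarith
  · intro s hs c hc hcs hts
    have hs0 : 0 < s := by linarith
    simp_rw [hdt s hs]
    set D : Cn 2 → ℂ := wdb 1 (fun y => ((c y : ℝ) : ℂ)) with hD
    have hDeq : D = fn (Db 1 (toSm c hc)) := by
      rw [fn_Db]; rfl
    have hDc : Continuous D := by rw [hDeq]; exact (fn_smooth _).continuous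
    have hWc : Continuous (fn (sW s)) := (fn_smooth _).continuous
    have hD0 : ∀ z, z ∉ Om → D z = 0 := by
      intro z hz
      have h1 : z ∉ tsupport (fun y => ((c y : ℝ) : ℂ)) := by
        intro h2
        apply hz
        apply hts
        exact (closure_mono (fun y hy => by
          simp only [Function.mem_support, ne_eq, Complex.ofReal_eq_zero] at hy ⊢
          exact hy)) h2
      rw [hD, wdb, fderiv_of_notMem_tsupport ℝ h1]
      simp
    have hMeas : MeasurableSet Om := isOpen_Om.measurableSet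
    -- the integral over everything is the integral over `Om`
    have hA : ∫ z, ‖fn (sW s) z * D z‖ = ∫ z in Om, ‖fn (sW s) z‖ * ‖D z‖ := by
      rw [← integral_indicator hMeas]
      apply integral_congr_ae
      refine Eventually.of_forall fun z => ?_
      by_cases hz : z ∈ Om
      · simp [hz]
      · simp [hz, hD0 z hz]
    have hB : ∫ z in Om, ‖D z‖ ^ 2 ≤ ∫ z, ‖D z‖ ^ 2 := by
      apply le_of_eq
      rw [← integral_indicator hMeas]
      apply integral_congr_ae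
      refine Eventually.of_forall fun z => ?_
      by_cases hz : z ∈ Om
      · simp [hz]
      · simp [hz, hD0 z hz]
    have hWint : ∫ z in Om, ‖fn (sW s) z‖ ^ 2 ≤ 36 * s := by
      have h1 : ∫ z in Om, ‖fn (sW s) z‖ ^ 2 ≤ ∫ z in Om, 1 / (‖z 1‖ ^ 2 + Ex s (z 0)) := by
        apply setIntegral_mono
        · exact intOn_Om (by fun_prop)
        · apply intOn_Om
          have := (Ex_smooth s).continuous
          apply Continuous.div continuous_const (by fun_prop)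
          intro z; exact (den_pos s (z 0) (z 1)).ne'
        · intro z; exact W_bound s z
      refine h1.trans ((bound2 s hs).trans ?_)
      nlinarith
    have hI := int_eq s c hc hcs
    set I := ∫ z, c z * (Ex s (z 0) ^ 2 / (‖z 1‖ ^ 2 + Ex s (z 0)) ^ 3) with hIdef
    have hI2 : I ≤ Real.sqrt (36 * s) * Real.sqrt (∫ z, ‖D z‖ ^ 2) := by
      calc I ≤ ‖(I : ℂ)‖ := by rw [Complex.norm_real]; exact Real.le_norm_self _
        _ = ‖∫ z, fn (sW s) z * D z‖ := by rw [hI, norm_neg]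
        _ ≤ ∫ z, ‖fn (sW s) z * D z‖ := norm_integral_le_integral_norm _
        _ = ∫ z in Om, ‖fn (sW s) z‖ * ‖D z‖ := hA
        _ ≤ Real.sqrt (∫ z in Om, ‖fn (sW s) z‖ ^ 2) * Real.sqrt (∫ z in Om, ‖D z‖ ^ 2) :=
            cs_ineq _ _ hWc hDc
        _ ≤ _ := by
            apply mul_le_mul (Real.sqrt_le_sqrt hWint) (Real.sqrt_le_sqrt hB) (Real.sqrt_nonneg _)
              (Real.sqrt_nonneg _)
    have hcomm : ∫ z, c z * (1 / (2 * s) * (Ex s (z 0) ^ 2 / (‖z 1‖ ^ 2 + Ex s (z 0)) ^ 3)) =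
        1 / (2 * s) * I := by
      rw [hIdef, ← integral_const_mul]
      congr 1
      funext z
      ring
    rw [hcomm]
    have h6 : Real.sqrt (36 * s) = 6 * Real.sqrt s := by
      rw [Real.sqrt_mul (by norm_num)]
      congr 1
      rw [show (36 : ℝ) = 6 ^ 2 by norm_num]
      exact Real.sqrt_sq (by norm_num)
    rw [h6] at hI2
    have h7 : 1 / (2 * s) * I ≤ 1 / (2 * s) * (6 * Real.sqrt s * Real.sqrt (∫ z, ‖D z‖ ^ 2)) :=
      mul_le_mul_of_nonneg_left hI2 (by positivity)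
    refine h7.trans (le_of_eq ?_)
    have h8 : Real.sqrt s * Real.sqrt s = s := Real.mul_self_sqrt hs0.le
    have h9 : 0 < Real.sqrt s := Real.sqrt_pos.2 hs0
    have h10 : Real.sqrt s ^ 2 = s := Real.sq_sqrt hs0.le
    field_simp
    rw [h10]
    ring

end Pool.Agent.H194.F4

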